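import Pool.Agent.Helper27.BI.S5.St5n
import Pool.Agent.Helper34.BI.UNK3
import Pool.Agent.Helper18.BI.M_A1

/-!
# Project BI, stage 5, module N2c: straightening the ball around the small wall
-/

set_option autoImplicit false

open scoped Manifold ContDiff Topology ComplexConjugate
open Set Filter Pool.Agent.Helper65.Barb Pool.Agent.Helper18.BI
open Pool.Agent.Helper70.BI (I4 LD ld_iff embOn_comp)
open Pool.Agent.Helper27.BI (e1)
open Pool.Agent.Helper27.H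
open Pool.Agent.Helper34.BI.UNK1 (th ti th_lo th_hi th_ti ti_th th_cont ti_cont th_nonneg
  ti_nonneg Ng Ng_cont Ng_nonneg Ng_smul nsq_nonneg' norm_le_nsq exists_push)
open Pool.Agent.Helper34.BI.UNK3 (Lr Lr_det det_ne)

namespace Pool.Agent.Helper27.S5

namespace N2c

/-- the centre -/
noncomputable def xc : R4 := (1 / 2, e1)

/-- the gauge -/
noncomputable def Nn (p : R4) : ℝ := Ng (1 / 2) (p - xc)

theorem nsq_sub (p : R4) : nsq (p - xc).2 = rsq 1 p := by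
  have h : (p - xc).2 = (p.2.1 - 1, p.2.2) := Prod.ext rfl (sub_zero _)
  rw [h]
  rfl

theorem Nn_nonneg (p : R4) : 0 ≤ Nn p := Ng_nonneg _ _

theorem Nn_cont : Continuous Nn := (Ng_cont _).comp (continuous_id.sub continuous_const)

theorem Nn_le {p : R4} {R : ℝ} (h : Nn p ≤ R) :
    |p.1 - 1 / 2| ≤ R / 2 ∧ Real.sqrt (rsq 1 p) ≤ R / 5 := by
  have h1 : |(p - xc).1| / (1 / 2) ≤ R := (le_max_left _ _).trans h
  have h2 : 5 * Real.sqrt (nsq (p - xc).2) ≤ R := (le_max_right _ _).trans h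
  rw [nsq_sub] at h2
  have h3 : (p - xc).1 = p.1 - 1 / 2 := rfl
  rw [h3, div_le_iff₀ (by norm_num)] at h1
  constructor <;> linarith

theorem Nn_le_of {p : R4} {R : ℝ} (h1 : |p.1 - 1 / 2| ≤ R / 2)
    (h2 : Real.sqrt (rsq 1 p) ≤ R / 5) : Nn p ≤ R := by
  have h3 : (p - xc).1 = p.1 - 1 / 2 := rfl
  refine max_le ?_ ?_
  · rw [h3, div_le_iff₀ (by norm_num)]
    linarith
  · rw [nsq_sub]
    linarith

theorem rsq_nonneg (p : R4) : 0 ≤ rsq 1 p := nsq_nonneg' _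

theorem wallS_Nn {δ : ℝ} (hδ : 0 ≤ δ) {p : R4} (hp : p ∈ wallS δ) : Nn p ≤ 1 := by
  obtain ⟨h1, h2, -, h4⟩ := hp
  refine Nn_le_of ?_ ?_
  · rw [abs_le]
    constructor <;> linarith
  · rw [show (1 / 5 : ℝ) = Real.sqrt (1 / 25) by
      rw [show (1 / 25 : ℝ) = (1 / 5) ^ 2 by norm_num, Real.sqrt_sq (by norm_num)]]
    exact Real.sqrt_le_sqrt (by linarith)

theorem Nn_Bq {p : R4} (h : Nn p ≤ 5 / 4) : p ∈ Bq := by
  obtain ⟨h1, h2⟩ := Nn_le h
  rw [abs_le] at h1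
  refine ⟨by linarith, by linarith, ?_⟩
  have h3 := Real.sq_sqrt (rsq_nonneg p)
  have h4 := Real.sqrt_nonneg (rsq 1 p)
  nlinarith

theorem norm_sub_le {p : R4} {R : ℝ} (hR : 0 ≤ R) (h : Nn p ≤ R) : ‖p - xc‖ ≤ R := by
  obtain ⟨h1, h2⟩ := Nn_le h
  rw [Prod.norm_def]
  refine max_le ?_ ?_
  · have h3 : (p - xc).1 = p.1 - 1 / 2 := rfl
    rw [h3, Real.norm_eq_abs]
    linarith
  · refine (norm_le_nsq _).trans ?_
    rw [nsq_sub]
    linarith

theorem isCompact_Nn (R : ℝ) : IsCompact {p | Nn p ≤ R} := by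
  rcases lt_or_ge R 0 with hR | hR
  · have : {p | Nn p ≤ R} = ∅ := by
      ext p
      simp only [Set.mem_ofPred_eq, mem_empty_iff_false, iff_false, not_le]
      exact lt_of_lt_of_le hR (Nn_nonneg _)
    rw [this]
    exact isCompact_empty
  · refine (isCompact_closedBall xc R).of_isClosed_subset (isClosed_le Nn_cont continuous_const) ?_
    intro p hp
    rw [Metric.mem_closedBall, dist_eq_norm]
    exact norm_sub_le hR hp

/-- **The squeeze.** -/
theorem exists_sq (l : ℝ) (hl0 : 0 < l) (hl1 : l < 1) :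
    ∃ T : R4 ≃ₜ R4, (∀ p, p ∉ {p | Nn p ≤ 5 / 4} → T p = p) ∧
      ∀ p, Nn p ≤ 1 → T p = xc + l • (p - xc) := by
  obtain ⟨R, hRdef⟩ : ∃ R : ℝ, R = 5 / 4 := ⟨_, rfl⟩
  have hR1 : 1 < R := by rw [hRdef]; norm_num
  let f : R4 → R4 := fun p => xc + th l R (Nn p) • (p - xc)
  let g : R4 → R4 := fun p => xc + ti l R (Nn p) • (p - xc)
  have hfm : ∀ p, f p - xc = th l R (Nn p) • (p - xc) := fun p => add_sub_cancel_left _ _
  have hgm : ∀ p, g p - xc = ti l R (Nn p) • (p - xc) := fun p => add_sub_cancel_left _ _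
  have hNf : ∀ p, Nn (f p) = th l R (Nn p) * Nn p := by
    intro p
    show Ng (1 / 2) (f p - xc) = _
    rw [hfm, Ng_smul (th_nonneg hl0 hl1 hR1 _)]
    rfl
  have hNg : ∀ p, Nn (g p) = ti l R (Nn p) * Nn p := by
    intro p
    show Ng (1 / 2) (g p - xc) = _
    rw [hgm, Ng_smul (ti_nonneg hl0 hl1 hR1 _)]
    rfl
  have hgf : ∀ p, g (f p) = p := by
    intro p
    show xc + ti l R (Nn (f p)) • (f p - xc) = p
    rw [hfm, hNf, smul_smul, ti_th hl0 hl1 hR1 (Nn_nonneg _), one_smul, add_sub_cancel]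
  have hfg : ∀ p, f (g p) = p := by
    intro p
    show xc + th l R (Nn (g p)) • (g p - xc) = p
    rw [hgm, hNg, smul_smul, th_ti hl0 hl1 hR1 (Nn_nonneg _), one_smul, add_sub_cancel]
  have hfcont : Continuous f :=
    continuous_const.add
      (((th_cont hl0 hl1 hR1).comp Nn_cont).smul (continuous_id.sub continuous_const))
  have hgcont : Continuous g :=
    continuous_const.add
      (((ti_cont hl0 hl1 hR1).comp Nn_cont).smul (continuous_id.sub continuous_const))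
  refine ⟨⟨⟨f, g, hgf, hfg⟩, hfcont, hgcont⟩, ?_, ?_⟩
  · intro p hp
    have hp' : R < Nn p := by
      rw [hRdef]
      exact not_le.mp hp
    show xc + th l R (Nn p) • (p - xc) = p
    rw [th_hi hl0 hl1 hR1 hp'.le, one_smul, add_sub_cancel]
  · intro p hp
    show xc + th l R (Nn p) • (p - xc) = _
    rw [th_lo hl0 hl1 hR1 hp]

theorem Nn_xc : Nn xc = 0 := by
  unfold Nn Ng
  rw [sub_self]
  unfold nsq
  simp

theorem core (hLOC : Pool.Agent.Helper70.BI.StLOC) (G : R4 → R4) (hG : EmbOn I4 G Bq)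
    (hdet : 0 < (fderiv ℝ G xc).det) :
    ∃ Ψ : R4 ≃ₜ R4, ∀ p, Nn p ≤ 1 → Ψ (G p) = p := by
  have hxc : xc ∈ Bq := Nn_Bq (by rw [Nn_xc]; norm_num)
  obtain ⟨D, -, -, hev⟩ := hLOC G xc univ (hG.1 xc hxc) hdet
    isOpen_univ isPreconnected_univ (mem_univ _) (mem_univ _)
  have hDf : Continuous fun x : R4 => D.f (1, x) :=
    D.smooth_f.continuous.comp (continuous_const.prodMk continuous_id)
  have hDg : Continuous fun x : R4 => D.g (1, x) :=
    D.smooth_g.continuous.comp (continuous_const.prodMk continuous_id)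
  let G₁ : R4 ≃ₜ R4 := ⟨⟨fun x => D.f (1, x), fun x => D.g (1, x), fun x => D.gf 1 x,
    fun x => D.fg 1 x⟩, hDf, hDg⟩
  obtain ⟨r, hr, hball⟩ := Metric.eventually_nhds_iff.1 hev
  obtain ⟨l, hl0, hl1, hlr⟩ : ∃ l : ℝ, 0 < l ∧ l < 1 ∧ l < r :=
    ⟨min (1 / 2) (r / 2), lt_min (by norm_num) (by linarith),
      lt_of_le_of_lt (min_le_left _ _) (by norm_num),
      lt_of_le_of_lt (min_le_right _ _) (by linarith)⟩
  obtain ⟨T, hTid, hT⟩ := exists_sq l hl0 hl1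
  have hsub : {p | Nn p ≤ 5 / 4} ⊆ Bq := fun p hp => Nn_Bq hp
  obtain ⟨δ, hδ, hδG⟩ := m_A1 R4 R4 R4 I4 R4 G {p | Nn p ≤ 5 / 4} (isCompact_Nn _)
    (fun p hp => hG.1 p (hsub hp)) (hG.2.mono hsub)
  obtain ⟨Ψ₁, h1⟩ := exists_push δ.toOpenPartialHomeomorph T {p | Nn p ≤ 5 / 4}
    (isCompact_Nn _) hδ hTid
  have hΨ₁ : ∀ p, Nn p ≤ 1 → Ψ₁ (G p) = G (xc + l • (p - xc)) ∧
      ‖(xc + l • (p - xc)) - xc‖ ≤ l := by
    intro p hp
    have hn : Nn (xc + l • (p - xc)) = l * Nn p := by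
      unfold Nn
      rw [add_sub_cancel_left, Ng_smul hl0.le]
    have hn1 : Nn (xc + l • (p - xc)) ≤ l := by
      rw [hn]
      nlinarith
    have hp1 : p ∈ δ.source := hδ (show Nn p ≤ 5 / 4 by linarith)
    have hp2 : xc + l • (p - xc) ∈ δ.source :=
      hδ (show Nn (xc + l • (p - xc)) ≤ 5 / 4 by linarith)
    refine ⟨?_, norm_sub_le hl0.le hn1⟩
    have := h1 p hp1
    rw [hT p hp] at this
    have e1 : Ψ₁ (δ p) = δ (xc + l • (p - xc)) := this
    rw [hδG p hp1, hδG _ hp2] at e1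
    exact e1
  refine ⟨Ψ₁.trans (G₁.trans T.symm), fun p hp => ?_⟩
  obtain ⟨e1, e2⟩ := hΨ₁ p hp
  show T.symm (G₁ (Ψ₁ (G p))) = p
  rw [e1]
  have e3 : G₁ (G (xc + l • (p - xc))) = xc + l • (p - xc) := hball (by
    rw [dist_eq_norm]
    exact lt_of_le_of_lt e2 hlr)
  rw [e3, ← hT p hp, T.symm_apply_apply]

/-- the reflection -/
noncomputable def rr (p : R4) : R4 := xc + Lr (p - xc)

theorem rr_eq (p : R4) : rr p = (1 - p.1, p.2) := by
  refine Prod.ext ?_ ?_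
  · show 1 / 2 + -(p.1 - 1 / 2) = 1 - p.1
    ring
  · show e1 + (p.2 - e1) = p.2
    rw [add_sub_cancel]

theorem rr_fderiv (p : R4) : HasFDerivAt rr Lr p := by
  have h1 : HasFDerivAt (fun q : R4 => q - xc) (ContinuousLinearMap.id ℝ R4) p :=
    (hasFDerivAt_id p).sub_const xc
  have h2 := (Lr.hasFDerivAt.comp p h1).const_add xc
  rw [ContinuousLinearMap.comp_id] at h2
  exact h2

theorem rr_contDiff : ContDiff ℝ ∞ rr :=
  contDiff_const.add (Lr.contDiff.comp (contDiff_id.sub contDiff_const))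

theorem Lr_inj : Function.Injective Lr := by
  intro a b h
  have h1 : (Lr a).1 = (Lr b).1 := by rw [h]
  have h2 : (Lr a).2 = (Lr b).2 := by rw [h]
  exact Prod.ext (neg_injective h1) h2

theorem rr_Bq {p : R4} (hp : p ∈ Bq) : rr p ∈ Bq := by
  obtain ⟨h1, h2, h3⟩ := hp
  rw [rr_eq]
  refine ⟨?_, ?_, h3⟩
  · show -(1 / 2) ≤ 1 - p.1
    linarith
  · show 1 - p.1 ≤ 3 / 2
    linarith

theorem rr_rr (p : R4) : rr (rr p) = p := by
  rw [rr_eq, rr_eq]
  refine Prod.ext ?_ rfl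
  show 1 - (1 - p.1) = p.1
  ring

theorem rr_wall {δ : ℝ} {p : R4} (hp : p ∈ wallS δ) : rr p ∈ wallS δ := by
  obtain ⟨h1, h2, h3, h4⟩ := hp
  rw [rr_eq]
  refine ⟨?_, ?_, h3, h4⟩
  · show 0 ≤ 1 - p.1
    linarith
  · show 1 - p.1 ≤ 1
    linarith

theorem rr_wallS (δ : ℝ) : rr '' wallS δ = wallS δ := by
  apply Subset.antisymm
  · rintro _ ⟨p, hp, rfl⟩
    exact rr_wall hp
  · intro p hp
    exact ⟨rr p, rr_wall hp, rr_rr p⟩

theorem embOn_rr : EmbOn I4 rr Bq := by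
  refine ⟨fun p _ => ?_, fun p _ q _ h => ?_⟩
  · have : LD rr p := by
      rw [ld_iff]
      refine ⟨Eventually.of_forall fun q => rr_contDiff.contDiffAt, ?_⟩
      rw [(rr_fderiv p).fderiv]
      exact Lr_inj
    exact this
  · rw [← rr_rr p, h, rr_rr]

theorem rr_xc : rr xc = xc := by
  unfold rr
  rw [sub_self, map_zero, add_zero]

end N2c

open N2c in
/-- **N2c.** -/
theorem m_N2c (hLOC : Pool.Agent.Helper70.BI.StLOC) : StN2c := by
  intro δ G hδ hG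
  have hxc : xc ∈ Bq := Nn_Bq (by rw [Nn_xc]; norm_num)
  have fin : ∀ G' : R4 → R4, EmbOn I4 G' Bq → 0 < (fderiv ℝ G' xc).det →
      ∃ Ψ : R4 ≃ₜ R4, Ψ '' (G' '' wallS δ) = wallS δ := by
    intro G' hG' hdet
    obtain ⟨Ψ, hΨ⟩ := core hLOC G' hG' hdet
    refine ⟨Ψ, ?_⟩
    rw [image_image]
    have : (fun p => Ψ (G' p)) '' wallS δ = (fun p => p) '' wallS δ :=
      image_congr fun p hp => hΨ p (wallS_Nn hδ.1.le hp)
    rw [this, image_id']
  have hLD : LD G xc := hG.1 xc hxc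
  rcases lt_or_gt_of_ne (det_ne hLD) with hneg | hpos
  · have h1 : EmbOn I4 (G ∘ rr) Bq := embOn_comp hG embOn_rr fun p hp => rr_Bq hp
    have hd : DifferentiableAt ℝ G (rr xc) := by
      rw [rr_xc]
      exact ((ld_iff.1 hLD).1.self_of_nhds).differentiableAt (by simp)
    have hF : HasFDerivAt (G ∘ rr) ((fderiv ℝ G (rr xc)).comp Lr) xc :=
      hd.hasFDerivAt.comp xc (rr_fderiv xc)
    have h2 : 0 < (fderiv ℝ (G ∘ rr) xc).det := by
      rw [hF.fderiv, rr_xc]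
      have h6 : ((fderiv ℝ G xc).comp Lr).det = (fderiv ℝ G xc).det * Lr.det :=
        LinearMap.det_comp _ _
      rw [h6, Lr_det]
      linarith
    obtain ⟨Ψ, hΨ⟩ := fin _ h1 h2
    refine ⟨Ψ, ?_⟩
    rw [image_comp, rr_wallS] at hΨ
    exact hΨ
  · exact fin G hG hpos

end Pool.Agent.Helper27.S5
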